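import Pool.Agent.G02.StmtsS

/-!
# Squad G02, row CLA: classification
-/

set_option autoImplicit false

namespace Pool.Agent.G02.H88

open Polynomial Pool.Agent.G02

noncomputable section

/-- the complex polynomial -/
abbrev cm (p : ℚ[X]) : ℂ[X] := p.map (algebraMap ℚ ℂ)

/-- the multiplicity -/
abbrev mu (p : ℚ[X]) (t : ℂ) : ℕ := (cm p).rootMultiplicity t

/-- the complex roots -/
def rt (p : ℚ[X]) : Finset ℂ := (cm p).roots.toFinset

lemma cm_ne {p : ℚ[X]} (hp : p ≠ 0) : cm p ≠ 0 :=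
  (Polynomial.map_ne_zero_iff (algebraMap ℚ ℂ).injective).2 hp

lemma natDegree_cm (p : ℚ[X]) : (cm p).natDegree = p.natDegree :=
  natDegree_map_eq_of_injective (algebraMap ℚ ℂ).injective p

lemma mem_rt {p : ℚ[X]} (hp : p ≠ 0) (t : ℂ) : t ∈ rt p ↔ (cm p).eval t = 0 := by
  rw [rt, Multiset.mem_toFinset, mem_roots (cm_ne hp), IsRoot.def]

lemma aeval_cm (p : ℚ[X]) (t : ℂ) : aeval t p = (cm p).eval t := by
  rw [eval_map_algebraMap]

lemma mu_mul {p q : ℚ[X]} (hp : p ≠ 0) (hq : q ≠ 0) (t : ℂ) : mu (p * q) t = mu p t + mu q t := by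
  unfold mu cm
  rw [Polynomial.map_mul]
  exact rootMultiplicity_mul (mul_ne_zero (cm_ne hp) (cm_ne hq))

lemma mu_pos {p : ℚ[X]} (hp : p ≠ 0) {t : ℂ} (h : (cm p).eval t = 0) : 0 < mu p t :=
  (rootMultiplicity_pos (cm_ne hp)).2 h

lemma mu_zero {p : ℚ[X]} {t : ℂ} (h : (cm p).eval t ≠ 0) : mu p t = 0 :=
  rootMultiplicity_eq_zero h

lemma cop_eval {p q : ℚ[X]} (h : IsCoprime p q) {t : ℂ} (hp : (cm p).eval t = 0) :
    (cm q).eval t ≠ 0 := by
  intro hq
  obtain ⟨u, v, huv⟩ := h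
  have h1 := congrArg (fun r : ℚ[X] => (cm r).eval t) huv
  simp only [cm, Polynomial.map_add, Polynomial.map_mul, Polynomial.map_one, eval_add, eval_mul,
    eval_one] at h1
  simp only [cm] at hp hq
  rw [hp, hq, mul_zero, mul_zero, add_zero] at h1
  exact zero_ne_one h1

/-- sums of the multiplicities -/
lemma card_rt_le (p : ℚ[X]) : (rt p).card ≤ p.natDegree := by
  rw [rt, ← natDegree_cm]
  exact (Multiset.toFinset_card_le _).trans (card_roots' _)

lemma rt_nonempty {p : ℚ[X]} (h : 1 ≤ p.natDegree) : 1 ≤ (rt p).card := by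
  have hp : p ≠ 0 := by
    rintro rfl
    simp at h
  have h1 : (cm p).degree ≠ 0 := by
    intro h2
    have h3 := natDegree_eq_of_degree_eq_some (n := 0) (by exact_mod_cast h2)
    rw [natDegree_cm] at h3
    omega
  obtain ⟨t, ht⟩ := IsAlgClosed.exists_root (cm p) h1
  exact Finset.card_pos.2 ⟨t, (mem_rt hp t).2 ht⟩

/-- the roots of odd multiplicity -/
def rt1 (p : ℚ[X]) : Finset ℂ := (rt p).filter fun t => mu p t % 2 = 1

lemma two_card (p : ℚ[X]) (hp : p ≠ 0) : 2 * (rt p).card ≤ p.natDegree + (rt1 p).card := by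
  classical
  have h1 : p.natDegree = ∑ t ∈ rt p, mu p t := by
    rw [← natDegree_cm, ← IsAlgClosed.card_roots_eq_natDegree, rt,
      ← Multiset.toFinset_sum_count_eq (cm p).roots]
    refine Finset.sum_congr rfl fun t _ => ?_
    rw [count_roots]
  have h2 : (rt1 p).card = ∑ t ∈ rt p, if mu p t % 2 = 1 then 1 else 0 := by
    rw [rt1, Finset.card_filter]
  rw [h1, h2, ← Finset.sum_add_distrib]
  have h3 : 2 * (rt p).card = ∑ t ∈ rt p, 2 := by
    rw [Finset.sum_const, smul_eq_mul, mul_comm]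
  rw [h3]
  refine Finset.sum_le_sum fun t ht => ?_
  have h4 : 0 < mu p t := mu_pos hp ((mem_rt hp t).1 ht)
  split_ifs with h5 <;> omega

/-- the arithmetic of the numbers of points -/
lemma arith {n df dg dw α β γ γ₁ : ℕ} (hn : 1 ≤ n) (hm : n = max df dg) (F1 : n + 1 ≤ γ + α + β)
    (F1' : df = dg → dg = dw → n + 2 ≤ γ + α + β) (F2 : 2 * γ ≤ df + γ₁)
    (F3 : α + β + γ₁ ≤ 3)
    (F4 : (dg < n ∨ dw < n ∨ (df < n ∧ (n - df) % 2 = 1)) → α + β + γ₁ ≤ 2)
    (Ga : α ≤ dg) (Gb : β ≤ dw) (Gc : γ ≤ df) (Ha : 1 ≤ dg → 1 ≤ α) (Hb : 1 ≤ dw → 1 ≤ β)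
    (Hc : 1 ≤ df → 1 ≤ γ) (hw : dw ≤ n) (h1 : df < n → dw = n) (h2 : dg < n → dw = n) :
    n = 1 ∨ ((df = 0 ∨ (df = 2 ∧ γ ≤ 1)) ∧
      (((dg = 0 ∨ (dg = 2 ∧ α ≤ 1)) ∧ 1 ≤ β) ∨ ((dw = 0 ∨ (dw = 2 ∧ β ≤ 1)) ∧ 1 ≤ α))) := by
  rcases le_total df dg with hle | hle
  · rw [max_eq_right hle] at hm
    subst hm
    by_cases e1 : df = n
    · by_cases e2 : dw = n
      · have := F1' (by omega) (by omega)
        omega
      · have := F4 (by omega)
        omega
    · have e2 : dw = n := h1 (by omega)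
      by_cases e3 : (n - df) % 2 = 1
      · have := F4 (by omega)
        omega
      · omega
  · rw [max_eq_left hle] at hm
    subst hm
    by_cases e1 : dg = n
    · by_cases e2 : dw = n
      · have := F1' (by omega) (by omega)
        omega
      · have := F4 (by omega)
        omega
    · have := F4 (by omega)
      have := h2 (by omega)
      omega

lemma isSquare_of_sq {B p q : ℚ[X]} (hp : p ≠ 0) (h : p ^ 2 * B = q ^ 2) : IsSquare B := by
  have h1 : p ^ 2 ∣ q ^ 2 := ⟨B, h.symm⟩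
  have h2 : p ∣ q := (IsIntegrallyClosed.pow_dvd_pow_iff (by norm_num)).1 h1
  obtain ⟨z, rfl⟩ := h2
  refine ⟨z, ?_⟩
  have h3 : p ^ 2 * B = p ^ 2 * (z * z) := by rw [h]; ring
  exact mul_left_cancel₀ (pow_ne_zero 2 hp) h3

/-- a constant multiple of the square of a linear polynomial or of `1` -/
def SqF (f : ℚ[X]) : Prop := ∃ (c : ℚ) (x : ℚ[X]), c ≠ 0 ∧ f = C c * x ^ 2

lemma sqF_of {f : ℚ[X]} (hf : f ≠ 0) (h : f.natDegree = 0 ∨ (f.natDegree = 2 ∧ (rt f).card ≤ 1)) :
    SqF f := by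
  classical
  rcases h with h | ⟨h, h'⟩
  · rw [natDegree_eq_zero] at h
    obtain ⟨c, rfl⟩ := h
    refine ⟨c, 1, ?_, by ring⟩
    rintro rfl
    exact hf (by simp)
  · have hc : (rt f).card = 1 := le_antisymm h' (rt_nonempty (by omega))
    obtain ⟨t, ht⟩ := Finset.card_eq_one.1 hc
    have h1 : (cm f).roots = Multiset.replicate 2 t := by
      rw [Multiset.eq_replicate]
      constructor
      · rw [IsAlgClosed.card_roots_eq_natDegree, natDegree_cm, h]
      · intro b hb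
        have : b ∈ rt f := by rw [rt, Multiset.mem_toFinset]; exact hb
        rw [ht, Finset.mem_singleton] at this
        exact this
    have h2 : cm f = C (cm f).leadingCoeff * (X - C t) ^ 2 := by
      have h3 := (IsAlgClosed.splits (cm f)).eq_prod_roots
      rw [h1] at h3
      rw [Multiset.map_replicate, Multiset.prod_replicate] at h3
      exact h3
    have hlc : (cm f).leadingCoeff = algebraMap ℚ ℂ f.leadingCoeff :=
      leadingCoeff_map_of_injective (algebraMap ℚ ℂ).injective f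
    have hlc0 : f.leadingCoeff ≠ 0 := leadingCoeff_ne_zero.2 hf
    -- the root is rational
    set c := f.leadingCoeff with hcdef
    set r : ℚ := - f.coeff 1 / (2 * c) with hr
    have htr : t = algebraMap ℚ ℂ r := by
      have h4 : (cm f).coeff 1 = (C (cm f).leadingCoeff * (X - C t) ^ 2 : ℂ[X]).coeff 1 := by
        rw [← h2]
      have h5 : (C (cm f).leadingCoeff * (X - C t) ^ 2 : ℂ[X]).coeff 1 =
          - 2 * (cm f).leadingCoeff * t := by
        have h6 : (C (cm f).leadingCoeff * (X - C t) ^ 2 : ℂ[X]) =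
            C (cm f).leadingCoeff * X ^ 2 + C (-2 * (cm f).leadingCoeff * t) * X +
              C ((cm f).leadingCoeff * t ^ 2) := by
          simp only [C_mul, C_neg, C_pow, map_ofNat]
          ring
        rw [h6, coeff_add, coeff_add, coeff_C_mul, coeff_C_mul, coeff_X_one, coeff_X_pow,
          coeff_C]
        norm_num
      rw [h5, coeff_map, hlc] at h4
      have hc' : (algebraMap ℚ ℂ) c ≠ 0 := by
        rw [Ne, map_eq_zero]
        exact hlc0
      rw [hr, map_div₀, map_neg, map_mul, map_ofNat, eq_div_iff (mul_ne_zero two_ne_zero hc'), h4]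
      ring
    refine ⟨c, X - C r, hlc0, ?_⟩
    apply Polynomial.map_injective _ (algebraMap ℚ ℂ).injective
    have h7 : cm f = cm (C c * (X - C r) ^ 2) := by
      rw [h2, hlc, htr]
      simp [cm]
    exact h7

/-- squares from a rational common value -/
lemma square_of {B A f g : ℚ[X]} (hf : SqF f) (hg : SqF g) (hf0 : f ≠ 0) (h : B * f = A ^ 2 * g)
    (c : ℚ) (hc0 : f.eval c ≠ 0) (s : ℚ) (hc : f.eval c = s ^ 2 * g.eval c) :
    IsSquare B := by
  obtain ⟨c₁, x, hc₁, rfl⟩ := hf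
  obtain ⟨c₂, y, hc₂, rfl⟩ := hg
  have hx0 : x ≠ 0 := by
    rintro rfl
    exact hf0 (by simp)
  simp only [eval_mul, eval_C, eval_pow] at hc0 hc
  have hxc : x.eval c ≠ 0 := by
    intro h1
    exact hc0 (by rw [h1]; ring)
  set σ : ℚ := s * c₂ * y.eval c / x.eval c with hσ
  have hσ2 : σ ^ 2 = c₁ * c₂ := by
    rw [hσ, div_pow, div_eq_iff (pow_ne_zero 2 hxc)]
    have : (s * c₂ * y.eval c) ^ 2 = c₂ * (s ^ 2 * (c₂ * y.eval c ^ 2)) := by ring
    rw [this, ← hc]
    ring
  refine isSquare_of_sq (p := C c₁ * x) (q := C σ * (A * y))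
    (mul_ne_zero (C_ne_zero.2 hc₁) hx0) ?_
  have h1 : (C σ : ℚ[X]) ^ 2 = C c₁ * C c₂ := by
    rw [← C_pow, hσ2, C_mul]
  calc (C c₁ * x) ^ 2 * B = C c₁ * (B * (C c₁ * x ^ 2)) := by ring
    _ = C c₁ * (A ^ 2 * (C c₂ * y ^ 2)) := by rw [h]
    _ = (C c₁ * C c₂) * (A * y) ^ 2 := by ring
    _ = (C σ * (A * y)) ^ 2 := by rw [← h1]; ring

lemma eval_cast (p : ℚ[X]) (c : ℚ) : (cm p).eval (c : ℂ) = ((p.eval c : ℚ) : ℂ) := by
  have h := eval_map_apply (algebraMap ℚ ℂ) (p := p) c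
  simpa using h

lemma coprime_parts (A b : ℚ[X]) (hb : b ≠ 0) : ∃ f g h : ℚ[X], h ≠ 0 ∧ A = h * f ∧ b = h * g ∧
    IsCoprime f g := by
  set h := EuclideanDomain.gcd A b with hh
  obtain ⟨f, hf⟩ := EuclideanDomain.gcd_dvd_left A b
  obtain ⟨g, hg⟩ := EuclideanDomain.gcd_dvd_right A b
  rw [← hh] at hf hg
  have h0 : h ≠ 0 := by
    intro h0
    rw [h0, zero_mul] at hg
    exact hb hg
  refine ⟨f, g, h, h0, hf, hg, ?_⟩
  have h1 := EuclideanDomain.gcd_eq_gcd_ab A b
  rw [← hh] at h1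
  refine ⟨EuclideanDomain.gcdA A b, EuclideanDomain.gcdB A b, ?_⟩
  apply mul_left_cancel₀ h0
  calc h * (EuclideanDomain.gcdA A b * f + EuclideanDomain.gcdB A b * g)
      = (h * f) * EuclideanDomain.gcdA A b + (h * g) * EuclideanDomain.gcdB A b := by ring
    _ = A * EuclideanDomain.gcdA A b + b * EuclideanDomain.gcdB A b := by rw [← hf, ← hg]
    _ = h * 1 := by rw [mul_one]; exact h1.symm

theorem cla (rhb : RhbStmt) : ClaStmt := by
  classical
  intro a b hb0 hc0 hni hF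
  have ha0 : a ≠ 0 := by
    rintro rfl
    exact hni 0 (by simp)
  obtain ⟨f, g, h, hh0, hfa, hgb, hcop⟩ := coprime_parts (a ^ 2) b hb0
  have hf0 : f ≠ 0 := by
    rintro rfl
    rw [mul_zero] at hfa
    exact pow_ne_zero 2 ha0 hfa
  have hg0 : g ≠ 0 := by
    rintro rfl
    rw [mul_zero] at hgb
    exact hb0 hgb
  obtain ⟨w, hw⟩ : ∃ w, w = f - 4 * g := ⟨_, rfl⟩
  have hwc : a ^ 2 - 4 * b = h * w := by rw [hfa, hgb, hw]; ring
  have hw0 : w ≠ 0 := by
    rintro rfl
    rw [mul_zero] at hwc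
    exact hc0 hwc
  have hcfw : IsCoprime f w := by
    obtain ⟨u, v, huv⟩ := hcop
    -- `u f + v g = 1`, `4 g = f - w`
    refine ⟨u + C (1 / 4) * v, - C (1 / 4) * v, ?_⟩
    have h4 : (C (1 / 4) : ℚ[X]) * 4 = 1 := by
      have : (4 : ℚ[X]) = C 4 := rfl
      rw [this, ← C_mul]
      norm_num
    calc (u + C (1 / 4) * v) * f + - C (1 / 4) * v * w = u * f + (C (1 / 4) * 4) * (v * g) := by
          rw [hw]; ring
      _ = 1 := by rw [h4, one_mul]; exact huv
  have hcgw : IsCoprime g w := by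
    obtain ⟨u, v, huv⟩ := hcop
    refine ⟨v + 4 * u, u, ?_⟩
    rw [hw]
    linear_combination huv
  -- multiplicities
  have m1 : ∀ t, 2 * mu a t = mu h t + mu f t := by
    intro t
    rw [← mu_mul hh0 hf0, ← hfa, pow_two, mu_mul ha0 ha0, two_mul]
  have m2 : ∀ t, mu b t = mu h t + mu g t := by
    intro t
    rw [← mu_mul hh0 hg0, ← hgb]
  have m3 : ∀ t, mu (a ^ 2 - 4 * b) t = mu h t + mu w t := by
    intro t
    rw [← mu_mul hh0 hw0, ← hwc]
  have gt : ∀ t, Gt a b t → ∃ m : ℕ, 2 * m ≤ mu a t ∧ mu b t = 4 * m ∧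
      mu (a ^ 2 - 4 * b) t = 4 * m := by
    rintro t ⟨m, h1, h2, h3⟩
    exact ⟨m, (le_rootMultiplicity_iff (cm_ne ha0)).2 h1, h2, h3⟩
  have badg : ∀ t ∈ rt g, ¬ Gt a b t := by
    intro t ht hgt
    obtain ⟨m, h1, h2, h3⟩ := gt t hgt
    have e := (mem_rt hg0 t).1 ht
    have p1 := mu_pos hg0 e
    have p2 := mu_zero (cop_eval hcop.symm e)
    have := m1 t
    have := m2 t
    omega
  have badw : ∀ t ∈ rt w, ¬ Gt a b t := by
    intro t ht hgt
    obtain ⟨m, h1, h2, h3⟩ := gt t hgt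
    have e := (mem_rt hw0 t).1 ht
    have p1 := mu_pos hw0 e
    have p2 := mu_zero (cop_eval hcgw.symm e)
    have := m2 t
    have := m3 t
    omega
  have badf : ∀ t ∈ rt1 f, ¬ Gt a b t := by
    intro t ht hgt
    obtain ⟨m, h1, h2, h3⟩ := gt t hgt
    rw [rt1, Finset.mem_filter] at ht
    have e := (mem_rt hf0 t).1 ht.1
    have p2 := mu_zero (cop_eval hcop e)
    have := m1 t
    have := m2 t
    have := ht.2
    omega
  -- degrees
  have d1 : 2 * a.natDegree = h.natDegree + f.natDegree := by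
    rw [← natDegree_mul hh0 hf0, ← hfa, natDegree_pow]
  have d2 : b.natDegree = h.natDegree + g.natDegree := by
    rw [← natDegree_mul hh0 hg0, ← hgb]
  have d3 : (a ^ 2 - 4 * b).natDegree = h.natDegree + w.natDegree := by
    rw [← natDegree_mul hh0 hw0, ← hwc]
  have h4g : (4 * g).natDegree = g.natDegree := by
    have : (4 : ℚ[X]) = C 4 := rfl
    rw [this, natDegree_C_mul (by norm_num)]
  obtain ⟨n, hn⟩ : ∃ n, n = max f.natDegree g.natDegree := ⟨_, rfl⟩
  have hnc : ¬ (f.natDegree = 0 ∧ g.natDegree = 0) := by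
    rintro ⟨e1, e2⟩
    rw [natDegree_eq_zero] at e1 e2
    obtain ⟨c₁, rfl⟩ := e1
    obtain ⟨c₂, rfl⟩ := e2
    have hc2 : c₂ ≠ 0 := by
      rintro rfl
      exact hg0 (by simp)
    apply hni (c₁ / c₂)
    rw [hfa, hgb]
    have : (C c₁ : ℚ[X]) = C (c₁ / c₂) * C c₂ := by
      rw [← C_mul, div_mul_cancel₀ _ hc2]
    rw [this]
    ring
  have hn1 : 1 ≤ n := by
    rcases Nat.eq_zero_or_pos n with h0 | h0
    · exfalso
      apply hnc
      have := le_max_left f.natDegree g.natDegree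
      have := le_max_right f.natDegree g.natDegree
      omega
    · exact h0
  have hfn : f.natDegree ≤ n := by rw [hn]; exact le_max_left _ _
  have hgn : g.natDegree ≤ n := by rw [hn]; exact le_max_right _ _
  have hmaxor : f.natDegree = n ∨ g.natDegree = n := by
    rcases max_choice f.natDegree g.natDegree with h1 | h1
    · left; omega
    · right; omega
  have hwn : w.natDegree ≤ n := by
    rw [hw]
    refine (natDegree_sub_le _ _).trans ?_
    rw [h4g]
    exact hn.ge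
  have hw1 : f.natDegree < n → w.natDegree = n := by
    intro hlt
    rw [hw, natDegree_sub_eq_right_of_natDegree_lt (by rw [h4g]; omega), h4g]
    omega
  have hw2 : g.natDegree < n → w.natDegree = n := by
    intro hlt
    rw [hw, natDegree_sub_eq_left_of_natDegree_lt (by rw [h4g]; omega)]
    omega
  have hngi : (g.natDegree < n ∨ w.natDegree < n ∨
      (f.natDegree < n ∧ (n - f.natDegree) % 2 = 1)) → ¬ Gi a b := by
    rintro hor ⟨m, g1, g2, g3⟩
    rcases hor with h1 | h1 | ⟨h1, h2⟩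
    · omega
    · omega
    · omega
  -- the numbers of points
  obtain ⟨F, hFm, hR1, hR2⟩ := rhb f g hcop hnc hf0 hg0 (by rw [← hw]; exact hw0)
  rw [← hw, ← hn] at hR1
  rw [← hn] at hR2
  have hFc : F.card ≤ (rt f).card + (rt g).card + (rt w).card := by
    have hsub : F ⊆ rt f ∪ rt g ∪ rt w := by
      intro t ht
      have h1 := (hFm t).1 ht
      rw [aeval_cm, ← hw] at h1
      simp only [cm, Polynomial.map_mul, eval_mul, mul_eq_zero] at h1
      rw [Finset.mem_union, Finset.mem_union, mem_rt hf0, mem_rt hg0, mem_rt hw0]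
      exact h1
    refine (Finset.card_le_card hsub).trans ((Finset.card_union_le _ _).trans ?_)
    have := Finset.card_union_le (rt f) (rt g)
    omega
  have hcard : (rt g ∪ rt w ∪ rt1 f).card = (rt g).card + (rt w).card + (rt1 f).card := by
    rw [Finset.card_union_of_disjoint, Finset.card_union_of_disjoint]
    · rw [Finset.disjoint_left]
      intro t h1 h2
      exact cop_eval hcgw ((mem_rt hg0 t).1 h1) ((mem_rt hw0 t).1 h2)
    · rw [Finset.disjoint_left]
      intro t h1 h2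
      rw [rt1, Finset.mem_filter] at h2
      have h3 := (mem_rt hf0 t).1 h2.1
      rcases Finset.mem_union.1 h1 with h4 | h4
      · exact cop_eval hcop h3 ((mem_rt hg0 t).1 h4)
      · exact cop_eval hcfw h3 ((mem_rt hw0 t).1 h4)
  obtain ⟨hB3, hB2⟩ := hF.2 (rt g ∪ rt w ∪ rt1 f) (by
    intro t ht
    rcases Finset.mem_union.1 ht with h1 | h1
    · rcases Finset.mem_union.1 h1 with h2 | h2
      · exact badg t h2
      · exact badw t h2
    · exact badf t h1)
  rw [hcard] at hB3 hB2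
  have key := arith (n := n) (df := f.natDegree) (dg := g.natDegree) (dw := w.natDegree)
    (α := (rt g).card) (β := (rt w).card) (γ := (rt f).card) (γ₁ := (rt1 f).card) hn1 hn
    (by omega) (fun e1 e2 => by
      have := hR1 ⟨e1, e2⟩
      omega)
    (two_card f hf0) hB3 (fun hor => hB2 (hngi hor)) (card_rt_le g) (card_rt_le w) (card_rt_le f)
    rt_nonempty rt_nonempty rt_nonempty hwn hw1 hw2
  have root : ∀ p : ℚ[X], p ≠ 0 → (∀ t ∈ rt p, ¬ Gt a b t) → 1 ≤ (rt p).card →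
      ∃ c : ℚ, p.eval c = 0 := by
    intro p hp hbad hcd
    obtain ⟨t, ht⟩ := Finset.card_pos.1 hcd
    obtain ⟨c, rfl⟩ := hF.1 t (hbad t ht)
    refine ⟨c, ?_⟩
    have h1 := (mem_rt hp _).1 ht
    rw [eval_cast] at h1
    exact_mod_cast h1
  have hfne : ∀ c : ℚ, w.eval c = 0 → f.eval c ≠ 0 := by
    intro c h1 h2
    have h3 : (cm w).eval (c : ℂ) = 0 := by rw [eval_cast, h1]; norm_num
    exact cop_eval hcfw.symm h3 (by rw [eval_cast, h2]; norm_num)
  have hfne' : ∀ c : ℚ, g.eval c = 0 → f.eval c ≠ 0 := by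
    intro c h1 h2
    have h3 : (cm g).eval (c : ℂ) = 0 := by rw [eval_cast, h1]; norm_num
    exact cop_eval hcop.symm h3 (by rw [eval_cast, h2]; norm_num)
  have hwe : ∀ c : ℚ, w.eval c = f.eval c - 4 * g.eval c := by
    intro c
    rw [hw]
    simp
  rcases key with k1 | ⟨k2, ⟨k3, k4⟩ | ⟨k3, k4⟩⟩
  · right; right
    refine ⟨f, g, ⟨by omega, by omega, hcop, hnc, hf0, hg0⟩, ?_⟩
    rw [hfa, hgb]
    ring
  · left
    obtain ⟨c, hc⟩ := root w hw0 badw k4
    refine square_of (A := a) (sqF_of hf0 k2) (sqF_of hg0 k3) hf0 ?_ c (hfne c hc) 2 ?_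
    · rw [hfa, hgb]; ring
    · have := hwe c
      rw [hc] at this
      linarith
  · right; left
    obtain ⟨c, hc⟩ := root g hg0 badg k4
    refine square_of (A := a) (sqF_of hf0 k2) (sqF_of hw0 k3) hf0 ?_ c (hfne' c hc) 1 ?_
    · rw [hwc, hfa]; ring
    · have := hwe c
      rw [hc] at this
      linarith

end

end Pool.Agent.G02.H88
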